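import Mathlib

/-!
# Free groups are conjugacy separable

Direct proof.  Let `L` be a cyclically reduced word of length `m` and `M` a word of length at most
`m`.  The letters act on the product of the cycle `ZMod m` with `ZMod m → ZMod 3`: the first
component moves along the cycle labelled by `L`, the second one records the edges of the cycle
which are traversed.  In the centraliser of the translation `τ` by `(1, …, 1)` the elements given
by `L` and `M` are conjugate only if `M` is a rotation of `L`.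
-/

set_option autoImplicit false

open Finset

namespace Pool.Agent.H61FC

set_option linter.unusedSectionVars false

variable {X : Type*} {m : ℕ} [NeZero m]

/-- the partial injection of the letter `x` -/
def Rel (l : ZMod m → X × Bool) (x : X) (i j : ZMod m) : Prop :=
  (l j = (x, true) ∧ i = j + 1) ∨ (l i = (x, false) ∧ j = i + 1)

/-- no cancellation around the cycle -/
def Cyc (l : ZMod m → X × Bool) : Prop := ∀ k, (l k).1 = (l (k + 1)).1 → (l k).2 = (l (k + 1)).2

theorem cyc_no1 {l : ZMod m → X × Bool} (h : Cyc l) {x : X} {k : ZMod m} (h1 : l k = (x, true))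
    (h2 : l (k + 1) = (x, false)) : False := by
  have := h k (by rw [h1, h2])
  rw [h1, h2] at this
  simp at this

theorem cyc_no2 {l : ZMod m → X × Bool} (h : Cyc l) {x : X} {k : ZMod m} (h1 : l k = (x, false))
    (h2 : l (k + 1) = (x, true)) : False := by
  have := h k (by rw [h1, h2])
  rw [h1, h2] at this
  simp at this

theorem rel_fun {l : ZMod m → X × Bool} (h : Cyc l) {x : X} {i j j' : ZMod m}
    (h1 : Rel l x i j) (h2 : Rel l x i j') : j = j' := by
  rcases h1 with ⟨a, rfl⟩ | ⟨a, rfl⟩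
  · rcases h2 with ⟨b, hb⟩ | ⟨b, rfl⟩
    · exact add_right_cancel hb
    · exact (cyc_no1 h a b).elim
  · rcases h2 with ⟨b, rfl⟩ | ⟨b, rfl⟩
    · exact (cyc_no1 h b a).elim
    · rfl

theorem rel_inj {l : ZMod m → X × Bool} (h : Cyc l) {x : X} {i i' j : ZMod m}
    (h1 : Rel l x i j) (h2 : Rel l x i' j) : i = i' := by
  rcases h1 with ⟨a, rfl⟩ | ⟨a, rfl⟩
  · rcases h2 with ⟨b, rfl⟩ | ⟨b, rfl⟩
    · rfl
    · exact (cyc_no2 h b a).elim
  · rcases h2 with ⟨b, rfl⟩ | ⟨b, hb⟩
    · exact (cyc_no2 h a b).elim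
    · exact add_right_cancel hb

theorem exists_perm {l : ZMod m → X × Bool} (h : Cyc l) :
    ∃ σ : X → Equiv.Perm (ZMod m), ∀ x i j, Rel l x i j → σ x i = j := by
  classical
  have hx : ∀ x, ∃ s : Equiv.Perm (ZMod m), ∀ i j, Rel l x i j → s i = j := by
    intro x
    let f : ZMod m → ZMod m := fun i => if h : ∃ j, Rel l x i j then h.choose else i
    have hf : ∀ i j, Rel l x i j → f i = j := by
      intro i j hij
      have he : ∃ j, Rel l x i j := ⟨j, hij⟩
      simp only [f, dif_pos he]
      exact rel_fun h he.choose_spec hij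
    obtain ⟨g, hg⟩ := Set.MapsTo.exists_equiv_extend_of_card_eq (α := ZMod m) (β := ZMod m)
      (t := Finset.univ) (by rw [Finset.card_univ]) (s := {i | ∃ j, Rel l x i j}) (f := f)
      (fun i _ => by simp) (by
        rintro i ⟨j, hj⟩ i' ⟨j', hj'⟩ hii
        rw [hf i j hj, hf i' j' hj'] at hii
        subst hii
        exact rel_inj h hj hj')
    refine ⟨g.trans (Equiv.subtypeUnivEquiv (fun _ => Finset.mem_univ _)), fun i j hij => ?_⟩
    have := hg i ⟨j, hij⟩
    rw [hf i j hij] at this
    simpa using this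
  choose σ hσ using hx
  exact ⟨σ, hσ⟩

open Classical in
/-- the weight of the `x`-edge at `i` -/
noncomputable def wt (l : ZMod m → X × Bool) (x : X) (i : ZMod m) : ZMod m → ZMod 3 := fun k =>
  if l k = (x, true) ∧ i = k + 1 then 1 else if l k = (x, false) ∧ i = k then -1 else 0

theorem wt_one {l : ZMod m → X × Bool} {x : X} {i k : ZMod m} (h : wt l x i k = 1) :
    l k = (x, true) ∧ i = k + 1 := by
  classical
  unfold wt at h
  split_ifs at h with h1 h2
  · exact h1
  · exact absurd h (by decide)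
  · exact absurd h (by decide)

theorem wt_neg {l : ZMod m → X × Bool} {x : X} {i k : ZMod m} (h : wt l x i k = -1) :
    l k = (x, false) ∧ i = k := by
  classical
  unfold wt at h
  split_ifs at h with h1 h2
  · exact absurd h (by decide)
  · exact h2
  · exact absurd h (by decide)

theorem wt_unique {l : ZMod m → X × Bool} (hc : Cyc l) {x : X} {i k k' : ZMod m}
    (h : wt l x i k ≠ 0) (h' : wt l x i k' ≠ 0) : k = k' := by
  classical
  have key : ∀ k, wt l x i k ≠ 0 → (l k = (x, true) ∧ i = k + 1) ∨ (l k = (x, false) ∧ i = k) := by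
    intro k hk
    unfold wt at hk
    split_ifs at hk with h1 h2
    · exact Or.inl h1
    · exact Or.inr h2
    · exact absurd rfl hk
  rcases key k h with ⟨a, rfl⟩ | ⟨a, rfl⟩
  · rcases key k' h' with ⟨b, hb⟩ | ⟨b, rfl⟩
    · exact add_right_cancel hb
    · exact (cyc_no1 hc a b).elim
  · rcases key k' h' with ⟨b, rfl⟩ | ⟨b, rfl⟩
    · exact (cyc_no1 hc b a).elim
    · rfl

/-- the state space -/
abbrev St (m : ℕ) : Type := ZMod m × (ZMod m → ZMod 3)

/-- skew product of a permutation with a cocycle -/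
def skew (s : Equiv.Perm (ZMod m)) (w : ZMod m → ZMod m → ZMod 3) : Equiv.Perm (St m) where
  toFun p := (s p.1, p.2 + w p.1)
  invFun p := (s.symm p.1, p.2 - w (s.symm p.1))
  left_inv p := by simp
  right_inv p := by simp

theorem skew_apply (s : Equiv.Perm (ZMod m)) (w : ZMod m → ZMod m → ZMod 3) (p : St m) :
    skew s w p = (s p.1, p.2 + w p.1) := rfl

theorem skew_inv_apply (s : Equiv.Perm (ZMod m)) (w : ZMod m → ZMod m → ZMod 3) (p : St m) :
    (skew s w)⁻¹ p = (s.symm p.1, p.2 - w (s.symm p.1)) := rfl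

/-- the translation by `(1, …, 1)` -/
def tau (m : ℕ) : Equiv.Perm (St m) where
  toFun p := (p.1, p.2 + fun _ => 1)
  invFun p := (p.1, p.2 - fun _ => 1)
  left_inv p := by simp
  right_inv p := by simp

theorem tau_apply (p : St m) : tau m p = (p.1, p.2 + fun _ => 1) := rfl

/-- the action of a letter -/
noncomputable def lact (l : ZMod m → X × Bool) (σ : X → Equiv.Perm (ZMod m)) (y : X × Bool) :
    Equiv.Perm (St m) :=
  cond y.2 (skew (σ y.1) (wt l y.1)) (skew (σ y.1) (wt l y.1))⁻¹

theorem lact_one {l : ZMod m → X × Bool} {σ : X → Equiv.Perm (ZMod m)}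
    (hσ : ∀ x i j, Rel l x i j → σ x i = j) (y : X × Bool) (p : St m) {k : ZMod m}
    (h : ((lact l σ y p).2 - p.2) k = 1) :
    l k = y ∧ p.1 = k + 1 ∧ (lact l σ y p).1 = k := by
  obtain ⟨x, b⟩ := y
  cases b with
  | true =>
    have e1 : lact l σ (x, true) p = (σ x p.1, p.2 + wt l x p.1) := rfl
    rw [e1] at h ⊢
    simp only [add_sub_cancel_left] at h
    obtain ⟨h1, h2⟩ := wt_one h
    exact ⟨h1, h2, hσ x _ _ (Or.inl ⟨h1, h2⟩)⟩
  | false =>
    have e1 : lact l σ (x, false) p = ((σ x).symm p.1, p.2 - wt l x ((σ x).symm p.1)) := rfl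
    rw [e1] at h ⊢
    simp only [sub_sub_cancel_left, Pi.neg_apply] at h
    obtain ⟨h1, h2⟩ := wt_neg (l := l) (x := x) (i := (σ x).symm p.1) (k := k)
      (by rw [← h, neg_neg])
    refine ⟨h1, ?_, h2⟩
    have h3 := hσ x k (k + 1) (Or.inr ⟨h1, rfl⟩)
    rw [← h3, ← h2, Equiv.apply_symm_apply]

theorem lact_unique {l : ZMod m → X × Bool} (hc : Cyc l) {σ : X → Equiv.Perm (ZMod m)}
    (y : X × Bool) (p : St m) {k k' : ZMod m} (h : ((lact l σ y p).2 - p.2) k ≠ 0)
    (h' : ((lact l σ y p).2 - p.2) k' ≠ 0) : k = k' := by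
  obtain ⟨x, b⟩ := y
  cases b with
  | true =>
    have e1 : lact l σ (x, true) p = (σ x p.1, p.2 + wt l x p.1) := rfl
    rw [e1] at h h'
    simp only [add_sub_cancel_left] at h h'
    exact wt_unique hc h h'
  | false =>
    have e1 : lact l σ (x, false) p = ((σ x).symm p.1, p.2 - wt l x ((σ x).symm p.1)) := rfl
    rw [e1] at h h'
    simp only [sub_sub_cancel_left, Pi.neg_apply, ne_eq, neg_eq_zero] at h h'
    exact wt_unique hc h h'

/-- letters of the cycle move along the cycle -/
theorem lact_self {l : ZMod m → X × Bool} (hc : Cyc l) {σ : X → Equiv.Perm (ZMod m)}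
    (hσ : ∀ x i j, Rel l x i j → σ x i = j) (k : ZMod m) (a : ZMod m → ZMod 3) :
    lact l σ (l k) (k + 1, a) = (k, a + Pi.single k 1) := by
  classical
  obtain ⟨y, hy⟩ : ∃ y, y = l k := ⟨_, rfl⟩
  obtain ⟨x, b⟩ := y
  rw [← hy]
  cases b with
  | true =>
    have e1 : lact l σ (x, true) (k + 1, a) = (σ x (k + 1), a + wt l x (k + 1)) := rfl
    rw [e1, hσ x (k + 1) k (Or.inl ⟨hy.symm, rfl⟩)]
    congr 2
    funext k'
    rw [Pi.single_apply]
    unfold wt
    by_cases hk : k' = k
    · subst hk
      rw [if_pos ⟨hy.symm, rfl⟩, if_pos rfl]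
    · rw [if_neg (fun h => hk (add_right_cancel h.2).symm), if_neg, if_neg hk]
      rintro ⟨h1, h2⟩
      exact cyc_no1 hc hy.symm (h2 ▸ h1)
  | false =>
    have e1 : lact l σ (x, false) (k + 1, a) =
      ((σ x).symm (k + 1), a - wt l x ((σ x).symm (k + 1))) := rfl
    have e2 : (σ x).symm (k + 1) = k := by
      rw [Equiv.symm_apply_eq]
      exact (hσ x k (k + 1) (Or.inr ⟨hy.symm, rfl⟩)).symm
    rw [e1, e2, sub_eq_add_neg]
    congr 2
    funext k'
    rw [Pi.single_apply, Pi.neg_apply]
    unfold wt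
    by_cases hk : k' = k
    · subst hk
      rw [if_neg, if_pos ⟨hy.symm, rfl⟩, if_pos rfl, neg_neg]
      rintro ⟨h1, -⟩
      rw [← hy] at h1
      simp at h1
    · rw [if_neg, if_neg (fun h => hk h.2.symm), if_neg hk, neg_zero]
      rintro ⟨h1, h2⟩
      exact cyc_no1 hc h1 (h2 ▸ hy.symm)

/-- the word read along the cycle from `q` -/
def seq (l : ZMod m → X × Bool) : ZMod m → ℕ → List (X × Bool)
  | _, 0 => []
  | q, n + 1 => l q :: seq l (q + 1) n

theorem seq_length (l : ZMod m → X × Bool) (q : ZMod m) (n : ℕ) : (seq l q n).length = n := by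
  induction n generalizing q with
  | zero => rfl
  | succ n ih => rw [seq, List.length_cons, ih]

theorem seq_last (l : ZMod m → X × Bool) (q : ZMod m) (n : ℕ) :
    seq l q (n + 1) = seq l q n ++ [l (q + n)] := by
  induction n generalizing q with
  | zero => simp [seq]
  | succ n ih =>
    rw [seq, ih (q + 1), seq, List.cons_append]
    congr 4
    push_cast
    ring

theorem seq_get (l : ZMod m → X × Bool) (q : ZMod m) (n j : ℕ) (h : j < (seq l q n).length) :
    (seq l q n)[j] = l (q + j) := by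
  induction n generalizing q j with
  | zero => simp [seq] at h
  | succ n ih =>
    cases j with
    | zero => simp [seq]
    | succ j =>
      simp only [seq, List.getElem_cons_succ]
      rw [ih]
      congr 1
      push_cast
      ring

theorem run_seq {l : ZMod m → X × Bool} (hc : Cyc l) {σ : X → Equiv.Perm (ZMod m)}
    (hσ : ∀ x i j, Rel l x i j → σ x i = j) (q : ZMod m) (n : ℕ) (a : ZMod m → ZMod 3) :
    ((seq l q n).map (lact l σ)).prod (q + n, a) =
      (q, a + ∑ j ∈ range n, Pi.single (q + j) 1) := by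
  induction n generalizing q with
  | zero => simp [seq]
  | succ n ih =>
    have e1 : q + ((n + 1 : ℕ) : ZMod m) = q + 1 + n := by push_cast; ring
    rw [seq, List.map_cons, List.prod_cons, Equiv.Perm.mul_apply, e1, ih (q + 1),
      lact_self hc hσ, Finset.sum_range_succ']
    congr 1
    rw [Nat.cast_zero, add_zero, add_assoc]
    congr 2
    refine Finset.sum_congr rfl fun j _ => ?_
    congr 1
    push_cast
    ring

theorem sum_single (q : ZMod m) :
    ∑ j ∈ range m, (Pi.single (q + (j : ZMod m)) 1 : ZMod m → ZMod 3) = fun _ => 1 := by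
  classical
  funext k
  rw [Finset.sum_apply, Finset.sum_eq_single (k - q).val]
  · rw [ZMod.natCast_zmod_val, add_sub_cancel, Pi.single_eq_same]
  · intro j hj hne
    rw [Pi.single_apply, if_neg]
    intro h
    apply hne
    rw [h, add_sub_cancel_left, ZMod.val_natCast_of_lt (mem_range.mp hj)]
  · intro h
    exact absurd (mem_range.mpr (ZMod.val_lt _)) h

/-- the support -/
def supp (D : ZMod m → ZMod 3) : Finset (ZMod m) := univ.filter fun k => D k ≠ 0

theorem run_count {l : ZMod m → X × Bool} (hc : Cyc l) {σ : X → Equiv.Perm (ZMod m)}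
    (hσ : ∀ x i j, Rel l x i j → σ x i = j) (M : List (X × Bool)) (p : St m) :
    (supp (((M.map (lact l σ)).prod p).2 - p.2)).card ≤ M.length ∧
    ((supp (((M.map (lact l σ)).prod p).2 - p.2)).card = M.length →
      (∀ k, (((M.map (lact l σ)).prod p).2 - p.2) k ≠ 0 →
        (((M.map (lact l σ)).prod p).2 - p.2) k = 1) →
      M = seq l ((M.map (lact l σ)).prod p).1 M.length) := by
  classical
  induction M with
  | nil => simp [supp, seq]
  | cons y M ih =>
    obtain ⟨ih1, ih2⟩ := ih
    obtain ⟨p', hp'⟩ : ∃ p', p' = (M.map (lact l σ)).prod p := ⟨_, rfl⟩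
    rw [← hp'] at ih1 ih2
    rw [List.map_cons, List.prod_cons, Equiv.Perm.mul_apply, ← hp']
    obtain ⟨p'', hp''⟩ : ∃ p'', p'' = lact l σ y p' := ⟨_, rfl⟩
    have hsum : p''.2 - p.2 = (p'.2 - p.2) + (p''.2 - p'.2) := by abel
    have hd1 : (supp (p''.2 - p'.2)).card ≤ 1 := by
      rw [Finset.card_le_one]
      intro a ha b hb
      rw [supp, mem_filter] at ha hb
      rw [hp''] at ha hb
      exact lact_unique hc y p' ha.2 hb.2
    have hsub : supp (p''.2 - p.2) ⊆ supp (p'.2 - p.2) ∪ supp (p''.2 - p'.2) := by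
      intro k hk
      rw [supp, mem_filter] at hk
      rw [mem_union, supp, supp, mem_filter, mem_filter]
      by_contra hcon
      push Not at hcon
      apply hk.2
      rw [hsum, Pi.add_apply, hcon.1 (mem_univ _), hcon.2 (mem_univ _), add_zero]
    rw [← hp'']
    have hc1 := card_le_card hsub
    have hc2 := card_union_le (supp (p'.2 - p.2)) (supp (p''.2 - p'.2))
    rw [List.length_cons]
    refine ⟨by omega, fun hcard hone => ?_⟩
    have hcd : (supp (p'.2 - p.2)).card = M.length := by omega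
    have hce : (supp (p''.2 - p'.2)).card = 1 := by omega
    have hdis : Disjoint (supp (p'.2 - p.2)) (supp (p''.2 - p'.2)) := by
      rw [← Finset.card_union_eq_card_add_card]
      omega
    have heq : supp (p''.2 - p.2) = supp (p'.2 - p.2) ∪ supp (p''.2 - p'.2) :=
      Finset.eq_of_subset_of_card_le hsub (by omega)
    have hmem : ∀ (D : ZMod m → ZMod 3) k, k ∈ supp D ↔ D k ≠ 0 := by
      intro D k
      simp [supp]
    have h1 : ∀ k, (p'.2 - p.2) k ≠ 0 → (p'.2 - p.2) k = 1 := by
      intro k hk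
      have h3 : (p''.2 - p'.2) k = 0 := by
        by_contra h4
        exact Finset.disjoint_left.mp hdis ((hmem _ _).mpr hk) ((hmem _ _).mpr h4)
      have h5 : (p''.2 - p.2) k = (p'.2 - p.2) k := by
        rw [hsum, Pi.add_apply, h3, add_zero]
      rw [← h5]
      apply hone
      rw [h5]
      exact hk
    obtain ⟨k, hk⟩ := Finset.card_eq_one.mp hce
    have hk0 : (p''.2 - p'.2) k ≠ 0 := (hmem _ _).mp (by rw [hk]; exact mem_singleton_self k)
    have hk1 : (p''.2 - p'.2) k = 1 := by
      have h3 : (p'.2 - p.2) k = 0 := by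
        by_contra h4
        exact Finset.disjoint_left.mp hdis ((hmem _ _).mpr h4) ((hmem _ _).mpr hk0)
      have h5 : (p''.2 - p.2) k = (p''.2 - p'.2) k := by
        rw [hsum, Pi.add_apply, h3, zero_add]
      rw [← h5]
      apply hone
      rw [h5]
      exact hk0
    rw [hp''] at hk1
    obtain ⟨g1, g2, g3⟩ := lact_one hσ y p' hk1
    have h6 := ih2 hcd h1
    rw [hp'', g3, seq, g1, ← g2, ← h6]

/-- rotations are conjugate -/
theorem conj_seq (l : ZMod m → X × Bool) (j : ℕ) :
    IsConj (FreeGroup.mk (seq l 0 m)) (FreeGroup.mk (seq l (j : ZMod m) m)) := by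
  induction j with
  | zero => rw [Nat.cast_zero]
  | succ j ih =>
    refine ih.trans ?_
    obtain ⟨n, hn⟩ : ∃ n, m = n + 1 := ⟨m - 1, by have := NeZero.pos m; omega⟩
    have e1 : seq l ((j + 1 : ℕ) : ZMod m) m = seq l ((j : ZMod m) + 1) n ++ [l (j : ZMod m)] := by
      have h1 := seq_last l ((j + 1 : ℕ) : ZMod m) n
      rw [← hn] at h1
      rw [h1]
      have h2 : ((j + 1 : ℕ) : ZMod m) + n = j := by
        have h3 : ((n + 1 : ℕ) : ZMod m) = 0 := by rw [← hn]; exact ZMod.natCast_self m
        push_cast at h3 ⊢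
        linear_combination h3
      rw [h2]
      push_cast
      rfl
    have e2 : seq l (j : ZMod m) m = [l (j : ZMod m)] ++ seq l ((j : ZMod m) + 1) n := by
      conv_lhs => rw [show seq l (j : ZMod m) m = seq l (j : ZMod m) (n + 1) by rw [← hn]]
      rfl
    rw [e1, e2, ← FreeGroup.mul_mk, ← FreeGroup.mul_mk, isConj_iff]
    exact ⟨FreeGroup.mk (seq l ((j : ZMod m) + 1) n), by group⟩

theorem sep_aux {X : Type*} {L M : List (X × Bool)} (hL : FreeGroup.IsCyclicallyReduced L)
    (hLM : M.length ≤ L.length) (h : ¬ IsConj (FreeGroup.mk L) (FreeGroup.mk M)) :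
    ∃ (Q : Type) (_ : Group Q) (_ : Finite Q) (ψ : FreeGroup X →* Q),
      ¬ IsConj (ψ (FreeGroup.mk L)) (ψ (FreeGroup.mk M)) := by
  classical
  obtain ⟨m, hm⟩ : ∃ m, m = L.length := ⟨_, rfl⟩
  by_cases hm0 : m = 0
  · exfalso
    apply h
    have e1 : L = [] := List.eq_nil_of_length_eq_zero (by omega)
    have e2 : M = [] := List.eq_nil_of_length_eq_zero (by omega)
    rw [e1, e2]
  have : NeZero m := ⟨hm0⟩
  let l : ZMod m → X × Bool := fun k => L[k.val]'(by rw [← hm]; exact ZMod.val_lt k)
  have hl : ∀ j : ℕ, ∀ hj : j < L.length, l (j : ZMod m) = L[j] := by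
    intro j hj
    simp only [l]
    congr 1
    exact ZMod.val_natCast_of_lt (by omega)
  have hc : Cyc l := by
    intro k
    obtain ⟨j, hj, rfl⟩ : ∃ j : ℕ, j < m ∧ (j : ZMod m) = k :=
      ⟨k.val, ZMod.val_lt k, ZMod.natCast_zmod_val k⟩
    have hcast : (j : ZMod m) + 1 = ((j + 1 : ℕ) : ZMod m) := by push_cast; rfl
    by_cases hj1 : j + 1 < m
    · rw [hcast, hl j (by omega), hl (j + 1) (by omega)]
      exact (List.isChain_iff_getElem.mp hL.1) j (by omega)
    · have hj2 : j + 1 = m := by omega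
      have h0 : ((j + 1 : ℕ) : ZMod m) = ((0 : ℕ) : ZMod m) := by
        rw [hj2, ZMod.natCast_self, Nat.cast_zero]
      rw [hcast, h0, hl j (by omega), hl 0 (by omega)]
      refine hL.2 _ ?_ _ ?_
      · rw [List.getLast?_eq_getElem?, Option.mem_def, List.getElem?_eq_some_iff]
        refine ⟨by omega, ?_⟩
        congr 1
        omega
      · rw [List.head?_eq_getElem?, Option.mem_def, List.getElem?_eq_some_iff]
        exact ⟨by omega, rfl⟩
  have hLs : L = seq l 0 m := by
    apply List.ext_getElem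
    · rw [seq_length, hm]
    · intro j h1 h2
      rw [seq_get, zero_add, hl j h1]
  obtain ⟨σ, hσ⟩ := exists_perm hc
  have hcomm : ∀ x, skew (σ x) (wt l x) ∈
      Subgroup.centralizer ({tau m} : Set (Equiv.Perm (St m))) := by
    intro x
    rw [Subgroup.mem_centralizer_iff]
    intro g hg
    rw [Set.mem_singleton_iff] at hg
    subst hg
    ext1 p
    rw [Equiv.Perm.mul_apply, Equiv.Perm.mul_apply, skew_apply, skew_apply, tau_apply, tau_apply]
    simp only
    congr 1
    abel
  let ψ : FreeGroup X →* Subgroup.centralizer ({tau m} : Set (Equiv.Perm (St m))) :=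
    FreeGroup.lift fun x => ⟨skew (σ x) (wt l x), hcomm x⟩
  have hψ : ∀ W : List (X × Bool),
      ((ψ (FreeGroup.mk W)) : Equiv.Perm (St m)) = (W.map (lact l σ)).prod := by
    intro W
    induction W with
    | nil =>
      rw [← FreeGroup.one_eq_mk, map_one]
      rfl
    | cons y W ih =>
      have e1 : FreeGroup.mk (y :: W) = FreeGroup.mk [y] * FreeGroup.mk W := by
        rw [FreeGroup.mul_mk]
        rfl
      rw [e1, map_mul, List.map_cons, List.prod_cons, ← ih, Subgroup.coe_mul]
      congr 1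
      obtain ⟨x, b⟩ := y
      cases b with
      | true =>
        have e2 : FreeGroup.mk [(x, true)] = FreeGroup.of x := rfl
        rw [e2]
        simp only [ψ, FreeGroup.lift_apply_of]
        rfl
      | false =>
        have e2 : FreeGroup.mk [(x, false)] = (FreeGroup.of x)⁻¹ := rfl
        rw [e2, map_inv]
        simp only [ψ, FreeGroup.lift_apply_of]
        rfl
  refine ⟨Subgroup.centralizer ({tau m} : Set (Equiv.Perm (St m))), inferInstance, inferInstance,
    ψ, fun hcon => ?_⟩
  obtain ⟨c, hcc⟩ := isConj_iff.mp hcon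
  have h0 : ((ψ (FreeGroup.mk L)) : Equiv.Perm (St m)) (0, 0) = tau m (0, 0) := by
    rw [hψ, hLs]
    have := run_seq hc hσ 0 m 0
    rw [ZMod.natCast_self, add_zero, sum_single] at this
    rw [this]
    rfl
  obtain ⟨P, hP⟩ : ∃ P, P = (c : Equiv.Perm (St m)) (0, 0) := ⟨_, rfl⟩
  have h1 : ((ψ (FreeGroup.mk M)) : Equiv.Perm (St m)) P = tau m P := by
    have h5 : (c : Equiv.Perm (St m))⁻¹ ((c : Equiv.Perm (St m)) (0, 0)) = (0, 0) :=
      Equiv.symm_apply_apply _ _
    rw [← hcc, Subgroup.coe_mul, Subgroup.coe_mul, Subgroup.coe_inv, Equiv.Perm.mul_apply,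
      Equiv.Perm.mul_apply, hP, h5, h0]
    have h2 := (Subgroup.mem_centralizer_iff.mp c.2) (tau m) rfl
    have h3 := congrArg (fun g : Equiv.Perm (St m) => g (0, 0)) h2
    simp only [Equiv.Perm.mul_apply] at h3
    exact h3.symm
  rw [hψ] at h1
  have h2 : ((M.map (lact l σ)).prod P).2 - P.2 = fun _ => 1 := by
    rw [h1, tau_apply]
    simp only [add_sub_cancel_left]
  obtain ⟨k1, k2⟩ := run_count hc hσ M P
  rw [h2] at k1 k2
  have hs : supp (fun _ : ZMod m => (1 : ZMod 3)) = univ := by
    rw [supp, Finset.filter_true_of_mem]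
    intro k _
    decide
  rw [hs, Finset.card_univ, ZMod.card] at k1 k2
  have hMm : M.length = m := by omega
  have h3 := k2 hMm.symm (fun k _ => rfl)
  rw [hMm] at h3
  apply h
  rw [hLs, h3]
  have h4 := conj_seq l (((M.map (lact l σ)).prod P).1).val
  rw [ZMod.natCast_zmod_val] at h4
  exact h4

/-- **Free groups are conjugacy separable.** -/
theorem free_conj_sep {X : Type*} (u v : FreeGroup X) (h : ¬ IsConj u v) :
    ∃ (Q : Type) (_ : Group Q) (_ : Finite Q) (ψ : FreeGroup X →* Q), ¬ IsConj (ψ u) (ψ v) := by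
  classical
  have key : ∀ w : FreeGroup X, ∃ L : List (X × Bool), FreeGroup.IsCyclicallyReduced L ∧
      IsConj w (FreeGroup.mk L) := by
    intro w
    refine ⟨FreeGroup.reduceCyclically w.toWord,
      FreeGroup.reduceCyclically.isCyclicallyReduced FreeGroup.isReduced_toWord, ?_⟩
    have h1 := FreeGroup.reduceCyclically.conj_conjugator_reduceCyclically w.toWord
    have h2 := congrArg FreeGroup.mk h1
    rw [FreeGroup.mk_toWord, ← FreeGroup.mul_mk, ← FreeGroup.mul_mk, ← FreeGroup.inv_mk] at h2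
    refine IsConj.symm (isConj_iff.mpr ⟨_, h2⟩)
  obtain ⟨L, hL, hLu⟩ := key u
  obtain ⟨M, hM, hMv⟩ := key v
  rcases le_total M.length L.length with hle | hle
  · obtain ⟨Q, i1, i2, ψ, hψ⟩ := sep_aux hL hle (fun hc => h (hLu.trans (hc.trans hMv.symm)))
    refine ⟨Q, i1, i2, ψ, fun hc => hψ ?_⟩
    exact ((ψ.map_isConj hLu).symm.trans hc).trans (ψ.map_isConj hMv)
  · obtain ⟨Q, i1, i2, ψ, hψ⟩ := sep_aux hM hle
      (fun hc => h (hLu.trans (hc.symm.trans hMv.symm)))
    refine ⟨Q, i1, i2, ψ, fun hc => hψ ?_⟩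
    exact ((ψ.map_isConj hMv).symm.trans hc.symm).trans (ψ.map_isConj hLu)

end Pool.Agent.H61FC
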